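import Pool.Agent.H251Z.Fan

/-!
A Tychonoff space with no fan at all that is not a k-space.
-/

set_option autoImplicit false

namespace Pool.Agent.Results.MP_99bf3a_gt.NotK

open Topology

/-- A Tychonoff space in which every compact-finite indexed family of subsets is locally finite,
and which has a non-closed set whose trace on every compact subspace is closed. -/
theorem result :
    ∃ (X : Type) (_ : TopologicalSpace X), T35Space X ∧
      (∀ (ι : Type) (F : ι → Set X),
        (∀ K : Set X, IsCompact K → {i | (F i ∩ K).Nonempty}.Finite) →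
        ∀ x : X, ∃ U ∈ nhds x, {i | (F i ∩ U).Nonempty}.Finite) ∧
      ∃ C : Set X, (∀ K : Set X, IsCompact K → IsClosed (Subtype.val ⁻¹' C : Set K)) ∧
        ¬ IsClosed C :=
  ⟨Pool.Agent.H251Z.Fan.X, inferInstance, inferInstance, Pool.Agent.H251Z.Fan.no_fan,
    Pool.Agent.H251Z.Fan.C, Pool.Agent.H251Z.Fan.C_kclosed, Pool.Agent.H251Z.Fan.C_not_closed⟩

end Pool.Agent.Results.MP_99bf3a_gt.NotK
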